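import Pool.Agent.Helper79_WRA.Basic
import Pool.Agent.Helper79_WRA.Stmt
import Pool.Agent.Helper51_AWC.WrChain

/-!
WRA: POS (facts on blocks of positive defect and of defect zero).
-/

open scoped BigOperators

noncomputable section

namespace Pool.Agent.Helper79_WRA.H83

open Pool.Agent.Helper51_AWC

section

variable {M : Ideal (integralClosure ℤ ℂ)}

theorem red_eq_zero_iff {z : ℂ} (hz : IsIntegral ℤ z) : red M z = 0 ↔ Cong M z 0 := by
  rw [← red_zero (M := M), red_eq_iff hz isIntegral_zero]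

theorem red_zero_of_cong {z : ℂ} (h : Cong M z 0) : red M z = 0 :=
  (red_eq_zero_iff (h.ai isIntegral_zero)).2 h

variable {G : Type} [Group G] [Fintype G]

theorem codeg_integral {χ : G → ℂ} (hχ : χ ∈ Irr G) : IsIntegral ℤ ((Fintype.card G : ℂ) / χ 1) := by
  have := Fintype.ofFinite (ConjClasses G)
  rw [codeg_eq hχ]
  apply IsIntegral.sum
  intro K _
  exact (omega_integral _ hχ _).mul (irr_integral hχ _)

theorem codeg_mul {χ : G → ℂ} (hχ : χ ∈ Irr G) (g : G) :
    (Fintype.card G : ℂ) / χ 1 * χ g =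
      (Nat.card (Subgroup.centralizer {g} : Subgroup G) : ℂ) * omega (MonoidHom.id G) χ g := by
  classical
  have h1 : omega (MonoidHom.id G) χ g =
      ((Finset.univ.filter fun h => IsConj g h).card : ℂ) * χ g / χ 1 := by
    rw [omega_eq]
    congr 1
    simp only [MonoidHom.id_apply]
    rw [← Finset.sum_filter]
    have : ∀ h ∈ Finset.univ.filter (fun h => IsConj g h), χ h = χ g := by
      intro h hh
      exact (irr_isConj hχ (Finset.mem_filter.1 hh).2).symm
    rw [Finset.sum_congr rfl this, Finset.sum_const, nsmul_eq_mul]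
  have h2 := card_class g
  rw [h1, ← h2]
  push_cast
  ring

/-- an integral quotient of natural numbers is a natural number -/
theorem dvd_of_integral {a n : ℕ} (hn : 0 < n) (h : IsIntegral ℤ ((a : ℂ) / n)) : n ∣ a := by
  have h1 : ((a : ℂ) / n) = algebraMap ℚ ℂ ((a : ℚ) / n) := by
    rw [map_div₀]; simp
  rw [h1, isIntegral_algebraMap_iff (algebraMap ℚ ℂ).injective] at h
  obtain ⟨y, hy⟩ := IsIntegrallyClosed.isIntegral_iff.1 h
  have hn' : (n : ℚ) ≠ 0 := by exact_mod_cast hn.ne'
  rw [eq_div_iff hn'] at hy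
  have h2 : (y * (n : ℤ)) = (a : ℤ) := by
    have : ((y * (n : ℤ) : ℤ) : ℚ) = ((a : ℤ) : ℚ) := by
      push_cast
      simpa using hy
    exact_mod_cast this
  have h3 : (n : ℤ) ∣ (a : ℤ) := ⟨y, by rw [← h2]; ring⟩
  exact_mod_cast h3

omit [Fintype G] in
theorem centralizer_inv_eq (g : G) :
    (Subgroup.centralizer {g⁻¹} : Subgroup G) = Subgroup.centralizer {g} := by
  ext x
  rw [Subgroup.mem_centralizer_singleton_iff, Subgroup.mem_centralizer_singleton_iff]
  constructor
  · intro h
    have h' : Commute x g⁻¹ := h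
    exact (Commute.inv_right_iff.1 h')
  · intro h
    have h' : Commute x g := h
    exact (Commute.inv_right_iff.2 h')

end

theorem pos : PosStmt := by
  intro ℓ hp M hM hℓ G _ _ hop
  classical
  have := Fintype.ofFinite G
  have hcard : (Nat.card G : ℂ) = (Fintype.card G : ℂ) := by rw [Nat.card_eq_fintype_card]
  have hbot : Nat.card (opCore ℓ G) = 1 := by rw [hop]; exact Subgroup.card_bot
  have hMp : M.IsPrime := hM.isPrime
  -- (1)
  have h1 : ∀ χ ∈ Irr G, LargeDefect ℓ M χ ↔ Cong M ((Fintype.card G : ℂ) / χ 1) 0 := by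
    intro χ hχ
    constructor
    · rintro ⟨ψ, hψ, hc, n, hn, hd⟩
      apply defect_block hχ hψ hc
      rw [hbot, mul_one] at hd
      obtain ⟨k, hk⟩ := hd
      have hn0 : (n : ℂ) ≠ 0 := by rw [← hn]; exact irr_one_ne hψ
      have e : (Fintype.card G : ℂ) / ψ 1 = ((ℓ * k : ℕ) : ℂ) := by
        rw [← hcard, hk, hn]
        push_cast
        field_simp
      rw [e]
      exact cong_nat_of_dvd hℓ (dvd_mul_right _ _)
    · intro h
      obtain ⟨n, hn, hn'⟩ := irr_one hχ
      refine ⟨χ, hχ, fun g => Cong.refl _, n, hn', ?_⟩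
      have hint := codeg_integral hχ
      rw [hn'] at hint h
      have hdvd := dvd_of_integral hn hint
      obtain ⟨k, hk⟩ := hdvd
      have hn0 : (n : ℂ) ≠ 0 := by exact_mod_cast hn.ne'
      have e : (Fintype.card G : ℂ) / (n : ℂ) = (k : ℂ) := by
        rw [hk]; push_cast; field_simp
      rw [e] at h
      obtain ⟨m, hm⟩ := dvd_of_cong_nat hp.out hℓ h
      rw [hbot, mul_one, Nat.card_eq_fintype_card, hk, hm]
      exact ⟨m, by ring⟩
  refine ⟨?_, ?_, ?_, ?_⟩
  · intro χ hχ
    rw [h1 χ hχ, hcard, red_eq_zero_iff (codeg_integral hχ)]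
  · intro d hd a ha χ hχ hL hlab
    obtain ⟨d1, d2, d3⟩ := mem_chainsOn.1 hd
    have hX : Cong M ((Nat.card G : ℂ) / χ 1) 0 := by
      rw [hcard]; exact (h1 χ hχ).1 hL
    have hα : (fun x : stab d => a x) ∈ IrrBlock M (stab d).subtype χ := by
      refine ⟨ha.2, fun g => ?_⟩
      rw [← omega_IrrS ha]
      exact (red_eq_iff (omega_IrrS_integral ha g)
        (omega_IrrS_integral (mem_IrrS_top.2 hχ) g)).1 (congrFun hlab g)
    have := defect_chain hℓ hχ hX (fun D hD => (mem_psub.1 (d1 hD)).2) d3 hα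
    exact red_zero_of_cong this
  · intro χ hχ hL g hg
    have hX := (h1 χ hχ).1 hL
    have h2 : Cong M ((Nat.card (Subgroup.centralizer {g} : Subgroup G) : ℂ) *
        omega (MonoidHom.id G) χ g) 0 := by
      rw [← codeg_mul hχ]
      exact hX.mul_zero_right (irr_integral hχ g)
    rcases cong_mul_zero (AI.natCast _) (omega_integral _ hχ g) h2 with h3 | h3
    · exact absurd (dvd_of_cong_nat hp.out hℓ h3) hg
    · exact red_zero_of_cong h3
  · intro χ hχ hL
    rw [h1 χ hχ] at hL
    by_contra hcon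
    push Not at hcon
    apply hL
    have := Fintype.ofFinite (ConjClasses G)
    rw [codeg_eq hχ]
    have h0 : (0 : ℂ) = ∑ _K : ConjClasses G, (0 : ℂ) := by simp
    rw [h0]
    apply Cong.sum
    intro K _
    by_cases hd : ℓ ∣ Nat.card (Subgroup.centralizer {Quotient.out K} : Subgroup G)
    · have h2 : Cong M ((Fintype.card G : ℂ) / χ 1 * χ (Quotient.out K)⁻¹) 0 := by
        rw [codeg_mul hχ, centralizer_inv_eq]
        exact (cong_nat_of_dvd hℓ hd).mul_zero_right (omega_integral _ hχ _)
      rcases cong_mul_zero (codeg_integral hχ) (irr_integral hχ _) h2 with h3 | h3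
      · exact absurd h3 hL
      · exact h3.mul_zero_left (omega_integral _ hχ _)
    · have h2 := hcon _ hd
      have h3 : Cong M (omega (MonoidHom.id G) χ (Quotient.out K)) 0 :=
        (red_eq_zero_iff (omega_integral _ hχ _)).1 h2
      exact h3.mul_zero_right (irr_integral hχ _)

end Pool.Agent.Helper79_WRA.H83
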