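import Pool.Agent.Helper79_WRA.Basic
import Pool.Agent.Helper79_WRA.Stmt

/-!
WRA: LABSUM (the local alternating sum for a label).
-/

open scoped BigOperators

noncomputable section

namespace Pool.Agent.Helper79_WRA.H83

open Pool.Agent.Helper51_AWC

/-- equality of labels is congruence of the central characters -/
theorem labF_eq_iff {M : Ideal (integralClosure ℤ ℂ)} {G : Type} [Group G] [Finite G]
    {H K : Subgroup G} {a b : G → ℂ} (ha : a ∈ IrrS H) (hb : b ∈ IrrS K) :
    labF M a = labF M b ↔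
      ∀ g, Cong M (omega (MonoidHom.id G) a g) (omega (MonoidHom.id G) b g) := by
  constructor
  · intro h g
    exact (red_eq_iff (omega_IrrS_integral ha g) (omega_IrrS_integral hb g)).1 (congrFun h g)
  · intro h
    funext g
    exact (red_eq_iff (omega_IrrS_integral ha g) (omega_IrrS_integral hb g)).2 (h g)

/-- the number of characters with a given label -/
theorem ncard_label {M : Ideal (integralClosure ℤ ℂ)} {G : Type} [Group G] [Finite G]
    (H : Subgroup G) {χ : G → ℂ} (hχ : χ ∈ Irr G) :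
    {a | a ∈ IrrS H ∧ labF M a = labF M χ}.ncard = (IrrBlock M H.subtype χ).ncard := by
  apply Set.ncard_congr (fun (a : G → ℂ) _ => fun x : H => a x)
  · rintro a ⟨h1, h2⟩
    refine ⟨h1.2, ?_⟩
    intro g
    rw [← omega_IrrS h1]
    exact (labF_eq_iff h1 (mem_IrrS_top.2 hχ)).1 h2 g
  · rintro a b ⟨h1, _⟩ ⟨h2, _⟩ h
    exact IrrS_ext h1 h2 (fun x => congrFun h x)
  · rintro ϑ ⟨h1, h2⟩
    obtain ⟨a, ha, hax⟩ := exists_IrrS H h1
    have he : (fun x : H => a x) = ϑ := funext hax
    refine ⟨a, ⟨ha, ?_⟩, he⟩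
    rw [labF_eq_iff ha (mem_IrrS_top.2 hχ)]
    intro g
    rw [omega_IrrS ha, he]
    exact h2 g

theorem labSum : LabSumStmt := by
  intro ℓ _ M G _ _ hop χ hχ
  rw [card_mul_altSum, hop]
  apply Finset.sum_congr rfl
  intro d _
  rw [ncard_label (stab d) hχ]
  unfold weight
  push_cast
  rfl

end Pool.Agent.Helper79_WRA.H83
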