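import Pool.Agent.Helper79_WRA.Basic
import Pool.Agent.Helper79_WRA.Stmt

/-!
WRA: TCONJ (the inner sum is invariant under conjugation).
-/

open scoped BigOperators

noncomputable section

namespace Pool.Agent.Helper79_WRA.H83

open Pool.Agent.Helper51_AWC

/-- conjugation as an automorphism of the lattice of subgroups -/
def cE {Γ : Type} [Group Γ] (g : Γ) : Subgroup Γ ↪o Subgroup Γ := mapE (MulAut.conj g)

theorem cE_apply {Γ : Type} [Group Γ] (g : Γ) (D : Subgroup Γ) : cE g D = conjS g D := rfl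

theorem conjS_inf {Γ : Type} [Group Γ] (g : Γ) (A B : Subgroup Γ) :
    conjS g (A ⊓ B) = conjS g A ⊓ conjS g B := by
  ext x
  simp only [mem_conjS, Subgroup.mem_inf]

theorem conjS_inv_conjS {Γ : Type} [Group Γ] (g : Γ) (A : Subgroup Γ) :
    conjS g (conjS g⁻¹ A) = A := by
  rw [conjS_conjS, mul_inv_cancel, conjS_one]

theorem cent_conj {Γ : Type} [Group Γ] {N : Subgroup Γ} (hN : N.Normal) (g : Γ)
    (c : Finset (Subgroup Γ)) :
    cent N (c.map (cE g).toEmbedding) = conjS g (cent N c) := by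
  ext x
  rw [mem_conjS]
  unfold cent
  simp only [Subgroup.mem_inf, Subgroup.mem_iInf]
  constructor
  · rintro ⟨h1, h2⟩
    refine ⟨by simpa using hN.conj_mem x h1 g⁻¹, ?_⟩
    intro D hD
    have h3 := h2 (cE g D) (Finset.mem_map_of_mem _ hD)
    rw [Subgroup.mem_centralizer_iff] at h3 ⊢
    intro y hy
    have h4 := h3 (g * y * g⁻¹) (by
      show g * y * g⁻¹ ∈ conjS g D
      rw [mem_conjS]
      simpa [mul_assoc] using hy)
    calc y * (g⁻¹ * x * g) = g⁻¹ * (g * y * g⁻¹ * x) * g := by group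
      _ = g⁻¹ * (x * (g * y * g⁻¹)) * g := by rw [h4]
      _ = g⁻¹ * x * g * y := by group
  · rintro ⟨h1, h2⟩
    refine ⟨?_, ?_⟩
    · have := hN.conj_mem _ h1 g
      have e : g * (g⁻¹ * x * g) * g⁻¹ = x := by group
      rwa [e] at this
    · intro D hD
      obtain ⟨E, hE, rfl⟩ := Finset.mem_map.1 hD
      have h3 := h2 E hE
      rw [Subgroup.mem_centralizer_iff] at h3 ⊢
      intro y hy
      have hy' : g⁻¹ * y * g ∈ E := mem_conjS.1 hy
      have h4 := h3 _ hy'
      calc y * x = g * (g⁻¹ * y * g * (g⁻¹ * x * g)) * g⁻¹ := by group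
        _ = g * (g⁻¹ * x * g * (g⁻¹ * y * g)) * g⁻¹ := by rw [h4]
        _ = x * y := by group

theorem psubIn_conj {ℓ : ℕ} {Γ : Type} [Group Γ] [Finite Γ] (g : Γ) (W : Subgroup Γ) :
    psubIn ℓ (conjS g W) = (psubIn ℓ W).map (cE g).toEmbedding := by
  ext D
  rw [mem_psubIn, Finset.mem_map]
  constructor
  · rintro ⟨h1, h2⟩
    refine ⟨conjS g⁻¹ D, ?_, ?_⟩
    · rw [mem_psubIn]
      refine ⟨?_, conjS_pgroup h2⟩
      rw [← conjS_mono (g := g), conjS_inv_conjS]
      exact h1
    · exact conjS_inv_conjS g D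
  · rintro ⟨E, hE, rfl⟩
    rw [mem_psubIn] at hE
    exact ⟨conjS_mono.2 hE.1, conjS_pgroup hE.2⟩

theorem tconj : TConjStmt := by
  intro ℓ _ Γ _ _ N hN w hw g c
  classical
  have hc : c.image (conjS g) = c.map (cE g).toEmbedding := by
    rw [Finset.map_eq_image]
    rfl
  have hstab : ∀ v : Finset (Subgroup Γ),
      stab (v.map (cE g).toEmbedding) = conjS g (stab v) := fun v => stab_equiv _ v
  have hbot : (⊥ : Subgroup Γ) = cE g ⊥ := (Subgroup.map_bot _).symm
  have hgoal : tsum ℓ N w (c.map (cE g).toEmbedding) = tsum ℓ N w c := by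
    unfold tsum
    rw [cent_conj hN, psubIn_conj]
    conv_lhs => rw [hbot]
    rw [sum_chainsOn_map]
    apply Finset.sum_congr rfl
    intro v _
    rw [Finset.card_map, hstab, hstab, ← conjS_inf, hw]
  rw [← hgoal, ← hc]

end Pool.Agent.Helper79_WRA.H83
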